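import Pool.Agent.Q225.Jit.Fwd

set_option autoImplicit false

/-! From sequences to packings. -/

namespace Pool.Agent.Q225.Jit

theorem mem_positions {S : List ℕ} {c p : ℕ} :
    p ∈ positions S c ↔ p < S.length ∧ S.getD p 0 = c := by
  simp [positions]

theorem positions_lt {S : List ℕ} {c : ℕ} : (positions S c).Pairwise (· < ·) := by
  unfold positions
  exact List.Pairwise.filter _ List.pairwise_lt_range

theorem positions_nodup (S : List ℕ) (c : ℕ) : (positions S c).Nodup :=
  positions_lt.imp (fun h => h.ne)

theorem length_distances (S : List ℕ) (c : ℕ) :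
    (distances S c).length = (positions S c).length := by
  unfold distances
  rcases h : positions S c with _ | ⟨x, l⟩
  · simp
  · simp

theorem headD_eq : ∀ {l : List ℕ} (h : 0 < l.length), l.headD 0 = l[0]
  | [], h => absurd h (by simp)
  | _ :: _, _ => rfl

/-- the distances before the last one -/
theorem distances_get {S : List ℕ} {c k : ℕ} (hk : k + 1 < (positions S c).length)
    (hk' : k < (distances S c).length) :
    (positions S c)[k + 1] = (positions S c)[k] + (distances S c)[k] := by
  have h1 : (distances S c)[k] = (positions S c)[k + 1] - (positions S c)[k] := by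
    simp only [distances, List.getElem_zipWith]
    rw [List.getElem_append_left (by simp; omega), List.getElem_tail]
  have h2 := List.pairwise_iff_getElem.1 (positions_lt (S := S) (c := c)) k (k + 1) (by omega) hk
    (by omega)
  omega

/-- the last distance -/
theorem distances_last {S : List ℕ} {c k : ℕ} (hk : k + 1 = (positions S c).length)
    (hk' : k < (distances S c).length) :
    S.length + (positions S c)[0] = (positions S c)[k] + (distances S c)[k] := by
  have h0 : (positions S c).headD 0 = (positions S c)[0] := headD_eq (by omega)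
  have h1 : (distances S c)[k] = (S.length + (positions S c)[0]) - (positions S c)[k] := by
    simp only [distances, List.getElem_zipWith]
    rw [List.getElem_append_right (by simp; omega)]
    simp only [List.getElem_singleton, h0]
  have h2 : (positions S c)[k] < S.length := (mem_positions.1 (List.getElem_mem _)).1
  omega

section

variable {S : List ℕ} {b B : ℕ}

/-- the zeros form an arithmetic progression -/
theorem zeros (hb : 1 ≤ b) (hS : S.length = b * (B + 1))
    (h : Multiset.ofList (distances S 0) = Multiset.ofList (List.replicate b (B + 1))) :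
    ∃ r, r < B + 1 ∧ ∀ p < b * (B + 1), (S.getD p 0 = 0 ↔ p % (B + 1) = r) := by
  rw [Multiset.coe_eq_coe] at h
  have h1 : distances S 0 = List.replicate b (B + 1) := List.perm_replicate.1 h
  have hlen : (positions S 0).length = b := by
    rw [← length_distances, h1, List.length_replicate]
  have hr : ∀ k (hk : k < (positions S 0).length),
      (positions S 0)[k] = (positions S 0)[0] + k * (B + 1) := by
    intro k
    induction k with
    | zero => intro _; simp
    | succ k ih =>
      intro hk
      rw [distances_get hk (by rw [length_distances]; omega), ih (by omega)]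
      simp only [h1, List.getElem_replicate]
      ring
  set r := (positions S 0)[0] with hrdef
  have hlast := distances_last (S := S) (c := 0) (k := b - 1) (by omega)
    (by rw [length_distances]; omega)
  have hlt : (positions S 0)[b - 1] < S.length := (mem_positions.1 (List.getElem_mem _)).1
  rw [hr (b - 1) (by omega), hS] at hlt
  have hrB : r < B + 1 := by
    have : b * (B + 1) = (b - 1) * (B + 1) + (B + 1) := by
      obtain ⟨c, rfl⟩ : ∃ c, b = c + 1 := ⟨b - 1, by omega⟩
      simp only [Nat.add_sub_cancel]
      ring
    omega
  refine ⟨r, hrB, ?_⟩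
  intro p hp
  constructor
  · intro h0
    have hm : p ∈ positions S 0 := mem_positions.2 ⟨by rw [hS]; exact hp, h0⟩
    obtain ⟨k, hk, rfl⟩ := List.mem_iff_getElem.1 hm
    rw [hr k hk, Nat.add_mul_mod_self_right, Nat.mod_eq_of_lt hrB]
  · intro hp2
    have hk : p / (B + 1) < b := Nat.div_lt_of_lt_mul (by rw [mul_comm]; exact hp)
    have h3 := hr (p / (B + 1)) (by rw [hlen]; exact hk)
    have h4 : p = (positions S 0)[p / (B + 1)] := by
      rw [h3]
      have := Nat.div_add_mod p (B + 1)
      rw [mul_comm] at this
      omega
    have h5 : (positions S 0)[p / (B + 1)] ∈ positions S 0 := List.getElem_mem _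
    rw [← h4] at h5
    exact (mem_positions.1 h5).2

/-- the window of a position -/
def win (b B r p : ℕ) : ℕ := (p + (B + 1) - r) / (B + 1) % b

theorem win_succ {r p : ℕ} (hr : r < B + 1) (hp : (p + 1) % (B + 1) ≠ r) :
    win b B r (p + 1) = win b B r p := by
  unfold win
  have e : p + 1 + (B + 1) - r = (p + (B + 1) - r) + 1 := by omega
  rw [e, Nat.succ_div, if_neg, add_zero]
  rintro ⟨k, hk⟩
  apply hp
  have h1 : p + 1 + (B + 1) = r + (B + 1) * k := by omega
  have h2 : (p + 1 + (B + 1)) % (B + 1) = (p + 1) % (B + 1) := Nat.add_mod_right _ _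
  rw [← h2, h1, Nat.add_mul_mod_self_left, Nat.mod_eq_of_lt hr]

theorem win_wrap {r : ℕ} (hb : 1 ≤ b) (hr : r < B + 1) (hr0 : r ≠ 0) :
    win b B r (b * (B + 1) - 1) = win b B r 0 := by
  unfold win
  have h1 : b * (B + 1) - 1 + (B + 1) - r = (B - r) + b * (B + 1) := by
    have : 1 ≤ b * (B + 1) := Nat.mul_pos hb (by omega)
    omega
  rw [h1, Nat.add_mul_div_right _ _ (by omega), Nat.div_eq_of_lt (by omega : B - r < B + 1),
    Nat.div_eq_of_lt (by omega : 0 + (B + 1) - r < B + 1)]
  simp

/-- all the positions of an item are in the same window -/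
theorem win_const {r c s : ℕ} (hb : 1 ≤ b) (hS : S.length = b * (B + 1)) (hr : r < B + 1)
    (hz : ∀ p < b * (B + 1), (S.getD p 0 = 0 ↔ p % (B + 1) = r)) (hc : c ≠ 0)
    (h : Multiset.ofList (distances S c) = Multiset.ofList (vec (b * (B + 1)) s)) :
    ∀ p ∈ positions S c, win b B r p = win b B r ((positions S c).headD 0) := by
  rw [Multiset.coe_eq_coe] at h
  have hmem : (b * (B + 1) - (s - 1)) ∈ distances S c := h.mem_iff.2 (by simp [vec])
  obtain ⟨l1, l2, hl⟩ := List.append_of_mem hmem
  have hperm : (l1 ++ l2).Perm (List.replicate (s - 1) 1) := by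
    rw [hl] at h
    unfold vec at h
    exact ((List.perm_middle.symm.trans h).cons_inv)
  have hrep : l1 ++ l2 = List.replicate (s - 1) 1 := List.perm_replicate.1 hperm
  have hone : ∀ k (hk : k < (distances S c).length), k ≠ l1.length → (distances S c)[k] = 1 := by
    intro k hk hne
    have hall : ∀ x ∈ l1 ++ l2, x = 1 := by
      intro x hx
      rw [hrep] at hx
      exact List.eq_of_mem_replicate hx
    simp only [hl]
    rcases lt_or_gt_of_ne hne with hlt | hgt
    · rw [List.getElem_append_left hlt]
      exact hall _ (List.mem_append_left _ (List.getElem_mem _))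
    · obtain ⟨t, rfl⟩ : ∃ t, k = l1.length + (t + 1) := ⟨k - l1.length - 1, by omega⟩
      rw [List.getElem_append_right (by omega)]
      simp only [Nat.add_sub_cancel_left, List.getElem_cons_succ]
      exact hall _ (List.mem_append_right _ (List.getElem_mem _))
  have hlen : (distances S c).length = (positions S c).length := length_distances S c
  have hk0 : l1.length < (positions S c).length := by
    rw [← hlen, hl]
    simp
  have hpos : 0 < (positions S c).length := by omega
  have h0 : (positions S c).headD 0 = (positions S c)[0] := headD_eq hpos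
  have hval : ∀ k (hk : k < (positions S c).length), (positions S c)[k] < b * (B + 1) ∧
      S.getD (positions S c)[k] 0 = c := by
    intro k hk
    have := mem_positions.1 (List.getElem_mem hk)
    rwa [hS] at this
  have hstep : ∀ k (hk : k + 1 < (positions S c).length), k ≠ l1.length →
      win b B r (positions S c)[k + 1] = win b B r (positions S c)[k] := by
    intro k hk hne
    have h1 := distances_get hk (by omega)
    rw [hone k (by omega) hne] at h1
    have h2 := hval (k + 1) hk
    rw [h1] at h2
    rw [h1]
    apply win_succ hr
    intro h3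
    exact hc (h2.2.symm.trans ((hz _ h2.1).2 h3))
  -- before the large distance
  have hbefore : ∀ k (hk : k < (positions S c).length), k ≤ l1.length →
      win b B r (positions S c)[k] = win b B r (positions S c)[0] := by
    intro k
    induction k with
    | zero => intro _ _; rfl
    | succ k ih =>
      intro hk hle
      rw [hstep k hk (by omega), ih (by omega) (by omega)]
  have hafter : ∀ t k (hk : k < (positions S c).length), l1.length < k →
      k + t + 1 = (positions S c).length →
      win b B r (positions S c)[k] = win b B r (positions S c)[0] := by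
    intro t
    induction t with
    | zero =>
      intro k hk hlt he
      have h1 := distances_last (S := S) (c := c) (k := k) (by omega) (by omega)
      rw [hone k (by omega) (by omega), hS] at h1
      have h2 := hval k hk
      have h3 := hval 0 hpos
      have h4 : (positions S c)[0] = 0 := by omega
      have h5 : (positions S c)[k] = b * (B + 1) - 1 := by omega
      rw [h4, h5]
      apply win_wrap hb hr
      rintro rfl
      rw [h4] at h3
      exact hc (h3.2.symm.trans ((hz 0 h3.1).2 (by simp)))
    | succ t ih =>
      intro k hk hlt he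
      rw [← hstep k (by omega) (by omega)]
      exact ih (k + 1) (by omega) (by omega) (by omega)
  intro p hp
  obtain ⟨k, hk, rfl⟩ := List.mem_iff_getElem.1 hp
  rw [h0]
  rcases le_or_gt k l1.length with hle | hgt
  · exact hbefore k hk hle
  · exact hafter ((positions S c).length - 1 - k) k hk hgt (by omega)

/-- there is room for `B` items in a window -/
theorem card_window {r j : ℕ} (hb : 1 ≤ b) (hr : r < B + 1) :
    ((Finset.range (b * (B + 1))).filter
      (fun p => p % (B + 1) ≠ r ∧ win b B r p = j)).card ≤ B := by
  have hD : 0 < b * (B + 1) := Nat.mul_pos hb (by omega)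
  have hcard : (Finset.Ioo (j * (B + 1)) ((j + 1) * (B + 1))).card = B := by
    rw [Nat.card_Ioo]
    have : (j + 1) * (B + 1) = j * (B + 1) + (B + 1) := by ring
    omega
  refine le_trans (Finset.card_le_card_of_injOn (fun p => (p + (B + 1) - r) % (b * (B + 1)))
    (t := Finset.Ioo (j * (B + 1)) ((j + 1) * (B + 1))) ?_ ?_) hcard.le
  · intro p hp
    simp only [Finset.coe_filter, Finset.mem_range, Set.mem_ofPred_eq] at hp
    obtain ⟨hp1, hp2, hp3⟩ := hp
    simp only [Finset.coe_Ioo, Set.mem_Ioo]
    set y := (p + (B + 1) - r) % (b * (B + 1)) with hy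
    have h1 : y / (B + 1) = j := by
      rw [hy, Nat.mod_mul_left_div_self]
      exact hp3
    have h2 : y % (B + 1) = (p + (B + 1) - r) % (B + 1) := by
      rw [hy, Nat.mod_mul_left_mod]
    have h3 : y % (B + 1) ≠ 0 := by
      rw [h2]
      intro h4
      apply hp2
      obtain ⟨k, hk⟩ := Nat.dvd_of_mod_eq_zero h4
      have h5 : p + (B + 1) = r + (B + 1) * k := by omega
      have h6 : (p + (B + 1)) % (B + 1) = p % (B + 1) := Nat.add_mod_right _ _
      rw [← h6, h5, Nat.add_mul_mod_self_left, Nat.mod_eq_of_lt hr]
    have h4 := Nat.div_add_mod y (B + 1)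
    rw [h1, mul_comm] at h4
    have h5 := Nat.mod_lt y (show B + 1 > 0 by omega)
    have : (j + 1) * (B + 1) = j * (B + 1) + (B + 1) := by ring
    omega
  · intro p hp q hq h
    simp only [Finset.coe_filter, Finset.mem_range, Set.mem_ofPred_eq] at hp hq
    have h1 : (p + (B + 1) - r) ≡ (q + (B + 1) - r) [MOD b * (B + 1)] := h
    have e1 : p + (B + 1) - r = p + (B + 1 - r) := by omega
    have e2 : q + (B + 1) - r = q + (B + 1 - r) := by omega
    rw [e1, e2] at h1
    have h2 : p ≡ q [MOD b * (B + 1)] := Nat.ModEq.add_right_cancel' _ h1
    have h3 := h2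
    unfold Nat.ModEq at h3
    rwa [Nat.mod_eq_of_lt hp.1, Nat.mod_eq_of_lt hq.1] at h3

end

theorem packing_of_feasible {a : List ℕ} {b B : ℕ} (hb : 1 ≤ b) (hsum : a.sum = b * B)
    (h : Feasible (inst a b B)) :
    ∃ f : ℕ → ℕ, (∀ i < a.length, f i < b) ∧
      ∀ j < b, ∑ i ∈ (Finset.range a.length).filter (fun i => f i = j), a.getD i 0 ≤ B := by
  obtain ⟨S, ⟨hS1, hS2, hS3⟩, hd⟩ := h
  have hD : (inst a b B).1.sum = b * (B + 1) := by
    simp only [inst, List.sum_cons, hsum]
    ring
  rw [hD] at hS1
  obtain ⟨r, hr, hz⟩ := zeros hb hS1 (by simpa [inst] using hd 0 (by simp [inst]))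
  have hitem : ∀ i < a.length, ∀ p ∈ positions S (i + 1),
      win b B r p = win b B r ((positions S (i + 1)).headD 0) := by
    intro i hi
    refine win_const (s := a.getD i 0) hb hS1 hr hz (by omega) ?_
    rw [hd (i + 1) (by simpa [inst] using hi)]
    have e2 : (inst a b B).2.getD (i + 1) [] = vec (b * (B + 1)) (a.getD i 0) := by
      simp only [inst, List.getD_cons_succ]
      rw [List.getD_eq_getElem _ _ (by simpa using hi), List.getElem_map,
        List.getD_eq_getElem _ _ hi]
    rw [e2]
  have hcount : ∀ i < a.length, a.getD i 0 = (positions S (i + 1)).length := by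
    intro i hi
    rw [length_positions, hS3 (i + 1) (by simpa [inst] using hi)]
    simp [inst]
  refine ⟨fun i => win b B r ((positions S (i + 1)).headD 0), ?_, ?_⟩
  · intro i _
    exact Nat.mod_lt _ (by omega)
  · intro j _
    refine le_trans ?_ (card_window (b := b) (j := j) hb hr)
    have h1 : ∀ i ∈ (Finset.range a.length).filter
        (fun i => win b B r ((positions S (i + 1)).headD 0) = j),
        a.getD i 0 = (positions S (i + 1)).toFinset.card := by
      intro i hi
      rw [Finset.mem_filter, Finset.mem_range] at hi
      rw [List.toFinset_card_of_nodup (positions_nodup S _)]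
      exact hcount i hi.1
    rw [Finset.sum_congr rfl h1, ← Finset.card_biUnion]
    · apply Finset.card_le_card
      intro p hp
      rw [Finset.mem_biUnion] at hp
      obtain ⟨i, hi, hp⟩ := hp
      rw [Finset.mem_filter, Finset.mem_range] at hi
      rw [List.mem_toFinset] at hp
      have hp2 := mem_positions.1 hp
      rw [hS1] at hp2
      rw [Finset.mem_filter, Finset.mem_range]
      refine ⟨hp2.1, ?_, ?_⟩
      · intro h3
        have := (hz p hp2.1).2 h3
        omega
      · rw [hitem i hi.1 p hp, hi.2]
    · intro i _ i' _ hne
      rw [Function.onFun, Finset.disjoint_left]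
      intro p hp hp'
      rw [List.mem_toFinset] at hp hp'
      have h1 := (mem_positions.1 hp).2
      have h2 := (mem_positions.1 hp').2
      omega

end Pool.Agent.Q225.Jit
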