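import Pool.Agent.NPC.Defs

set_option autoImplicit false

/-! Just-in-time sequences with prescribed distances: definitions. -/

namespace Pool.Agent.Q225.Jit

open Pool.Agent.NPC

/-- An instance of FEAS: the numbers `d₁, …, dₙ` and the vectors `α¹, …, αⁿ` (all integers in
binary). -/
abbrev Inst : Type := List ℕ × List (List ℕ)

/-- `α` is a decomposition vector of `D` into `d` components: `d` positive integers in weakly
decreasing order whose sum is `D`. -/
def IsDecomposition (D d : ℕ) (α : List ℕ) : Prop :=
  α.length = d ∧ (∀ x ∈ α, 1 ≤ x) ∧ α.Pairwise (fun x y => y ≤ x) ∧ α.sum = D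

/-- The instance is well-formed: there are as many vectors as numbers, the numbers `dᵢ` are
positive, and `αⁱ` is a decomposition vector of `D = d₁ + ⋯ + dₙ` into `dᵢ` components. -/
def Legal (I : Inst) : Prop :=
  I.2.length = I.1.length ∧ ∀ i < I.1.length, 1 ≤ I.1.getD i 0 ∧
    IsDecomposition I.1.sum (I.1.getD i 0) (I.2.getD i [])

/-- The positions `p₁ < p₂ < ⋯` of the letter `c` in the word `S` (counted from `0`). -/
def positions (S : List ℕ) (c : ℕ) : List ℕ :=
  (List.range S.length).filter (fun p => decide (S.getD p 0 = c))

/-- The distances of the letter `c` in the cyclic word `S`: the differences `p_{k+1} - p_k` of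
consecutive positions, and the wrap-around distance `D - p_d + p_1`, written as
`(D + p_1) - p_d`, where `D` is the length of `S`. -/
def distances (S : List ℕ) (c : ℕ) : List ℕ :=
  List.zipWith (fun p q => q - p) (positions S c)
    ((positions S c).tail ++ [S.length + (positions S c).headD 0])

/-- `S` is a just-in-time sequence for `d = (d₁, …, dₙ)`: a word of length `D = d₁ + ⋯ + dₙ` over
the alphabet `{0, …, n-1}` in which the letter `i` occurs exactly `dᵢ` times. -/
def IsJit (d S : List ℕ) : Prop :=
  S.length = d.sum ∧ (∀ c ∈ S, c < d.length) ∧ ∀ i < d.length, S.count i = d.getD i 0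

/-- The vectors are feasible: there is a just-in-time sequence for `d` such that, for every letter
`i`, the multiset of the distances of `i` is the multiset of the components of `αⁱ`. -/
def Feasible (I : Inst) : Prop :=
  ∃ S : List ℕ, IsJit I.1 S ∧ ∀ i < I.1.length,
    (Multiset.ofList (distances S i)) = Multiset.ofList (I.2.getD i [])

/-- FEAS, as a decision problem: the yes-instances are the well-formed instances that are
feasible. -/
def Feas (I : Inst) : Prop := Legal I ∧ Feasible I

/-- `NP`-completeness of a decision problem. -/
def NPCompleteP {α : Type} [TEnc α] (P : α → Prop) : Prop := InNPP P ∧ NPHardP P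

end Pool.Agent.Q225.Jit
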