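import Pool.Agent.Q225.Jit.Defs

set_option autoImplicit false

/-! From packings to sequences. -/

namespace Pool.Agent.Q225.Jit

theorem positions_append (X Y : List ℕ) (c : ℕ) :
    positions (X ++ Y) c = positions X c ++ (positions Y c).map (fun p => X.length + p) := by
  unfold positions
  rw [List.length_append, List.range_add, List.filter_append, List.filter_map]
  congr 1
  · apply List.filter_congr
    intro p hp
    rw [List.mem_range] at hp
    rw [List.getD_append _ _ _ _ hp]
  · congr 1
    apply List.filter_congr
    intro p hp
    simp only [Function.comp]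
    rw [List.getD_append_right _ _ _ _ (by omega)]
    simp

theorem positions_of_notMem {X : List ℕ} {c : ℕ} (h : c ∉ X) : positions X c = [] := by
  unfold positions
  rw [List.filter_eq_nil_iff]
  intro p hp
  rw [List.mem_range] at hp
  rw [List.getD_eq_getElem _ _ hp]
  simp only [decide_eq_true_eq]
  rintro rfl
  exact h (List.getElem_mem _)

theorem positions_replicate (k c : ℕ) : positions (List.replicate k c) c = List.range k := by
  unfold positions
  rw [List.length_replicate, List.filter_eq_self]
  intro p hp
  rw [List.mem_range] at hp
  rw [List.getD_eq_getElem _ _ (by simpa using hp)]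
  simp

theorem range_step (w : ℕ) (k x : ℕ) : (List.range (k + 1)).map (fun j => x + j * w) =
    x :: (List.range k).map (fun j => (x + w) + j * w) := by
  rw [List.range_succ_eq_map, List.map_cons, List.map_map]
  congr 1
  · simp
  · apply List.map_congr_left
    intro j _
    show x + (j + 1) * w = x + w + j * w
    ring

theorem zip_ap (w E : ℕ) : ∀ (k x : ℕ),
    List.zipWith (fun p q => q - p) ((List.range (k + 1)).map (fun j => x + j * w))
      (((List.range (k + 1)).map (fun j => x + j * w)).tail ++ [E]) =
      List.replicate k w ++ [E - (x + k * w)]
  | 0, x => by simp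
  | k + 1, x => by
    have ih := zip_ap w E k (x + w)
    rw [range_step w (k + 1) x, List.tail_cons]
    rw [range_step w k (x + w), List.tail_cons] at ih
    rw [range_step w k (x + w), List.cons_append, List.zipWith_cons_cons, ih,
      List.replicate_succ, List.cons_append]
    congr 1
    · omega
    · congr 2
      have : x + (k + 1) * w = x + w + k * w := by ring
      rw [this]

/-- distances of a letter whose positions form an arithmetic progression -/
theorem distances_ap {S : List ℕ} {c k x w : ℕ}
    (h : positions S c = (List.range (k + 1)).map (fun j => x + j * w)) :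
    distances S c = List.replicate k w ++ [S.length - k * w] := by
  have h2 : (positions S c).headD 0 = x := by
    rw [h, range_step]
    rfl
  unfold distances
  rw [h2, h, zip_ap]
  congr 2
  omega

theorem length_positions (S : List ℕ) (c : ℕ) : (positions S c).length = S.count c := by
  induction S using List.reverseRecOn with
  | nil => simp [positions]
  | append_singleton S a ih =>
    rw [positions_append, List.length_append, List.length_map, ih, List.count_append]
    congr 1
    by_cases h : a = c
    · subst h
      simp [positions]
    · rw [positions_of_notMem (by simpa using fun e => h e.symm)]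
      simp [h]

theorem split_flatMap {ι α : Type} {l : List ι} (hl : l.Nodup) {i : ι} (hi : i ∈ l)
    (g : ι → List α) : ∃ l1 l2, l = l1 ++ i :: l2 ∧ i ∉ l1 ∧ i ∉ l2 ∧
      l.flatMap g = l1.flatMap g ++ g i ++ l2.flatMap g := by
  obtain ⟨l1, l2, rfl⟩ := List.append_of_mem hi
  refine ⟨l1, l2, rfl, ?_, ?_, by simp⟩
  · intro h
    rw [List.nodup_append] at hl
    exact hl.2.2 i h i (by simp) rfl
  · intro h
    rw [List.nodup_append, List.nodup_cons] at hl
    exact hl.2.1.1 h

section

variable (a : List ℕ) (f : ℕ → ℕ)

/-- the items of a bin -/
def items (j : ℕ) : List ℕ := (List.range a.length).filter (fun i => decide (f i = j))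

/-- the content of a bin -/
def content (j : ℕ) : List ℕ :=
  (items a f j).flatMap (fun i => List.replicate (a.getD i 0) (i + 1))

/-- the block of a bin -/
def block (j : ℕ) : List ℕ := 0 :: content a f j

/-- the word of a packing -/
def word (b : ℕ) : List ℕ := (List.range b).flatMap (block a f)

variable {a f}

theorem mem_items {i j : ℕ} : i ∈ items a f j ↔ i < a.length ∧ f i = j := by
  simp [items]

theorem mem_content {c j : ℕ} (h : c ∈ content a f j) :
    ∃ i, i < a.length ∧ f i = j ∧ c = i + 1 := by
  unfold content at h
  rw [List.mem_flatMap] at h
  obtain ⟨i, hi, hc⟩ := h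
  rw [mem_items] at hi
  exact ⟨i, hi.1, hi.2, List.eq_of_mem_replicate hc⟩

theorem zero_notMem_content (j : ℕ) : 0 ∉ content a f j := by
  intro h
  obtain ⟨i, -, -, h⟩ := mem_content h
  omega

theorem mem_word {c b : ℕ} (h : c ∈ word a f b) : c < a.length + 1 := by
  unfold word at h
  rw [List.mem_flatMap] at h
  obtain ⟨j, -, h⟩ := h
  unfold block at h
  rw [List.mem_cons] at h
  rcases h with rfl | h
  · omega
  · obtain ⟨i, hi, -, rfl⟩ := mem_content h
    omega

theorem length_content (j : ℕ) :
    (content a f j).length = ∑ i ∈ (Finset.range a.length).filter (fun i => f i = j), a.getD i 0 := by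
  unfold content items
  rw [List.length_flatMap]
  simp only [List.length_replicate]
  rw [Finset.sum_filter]
  induction a.length with
  | zero => simp
  | succ n ih =>
    rw [List.range_succ, List.filter_append, List.map_append, List.sum_append, ih,
      Finset.sum_range_succ]
    congr 1
    by_cases h : f n = j <;> simp [h]

/-- an item is an interval of the word -/
theorem word_split {b i : ℕ} (hi : i < a.length) (hf : f i < b) :
    ∃ X Y : List ℕ, i + 1 ∉ X ∧ i + 1 ∉ Y ∧
      word a f b = X ++ List.replicate (a.getD i 0) (i + 1) ++ Y := by
  obtain ⟨l1, l2, -, h1, h2, h3⟩ := split_flatMap (List.nodup_range (n := b))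
    (List.mem_range.2 hf) (block a f)
  obtain ⟨m1, m2, h4, k1, k2, k3⟩ := split_flatMap (l := items a f (f i))
    (List.Nodup.filter _ List.nodup_range) (mem_items.2 ⟨hi, rfl⟩)
    (fun i => List.replicate (a.getD i 0) (i + 1))
  refine ⟨l1.flatMap (block a f) ++ 0 :: m1.flatMap (fun i => List.replicate (a.getD i 0) (i + 1)),
    m2.flatMap (fun i => List.replicate (a.getD i 0) (i + 1)) ++ l2.flatMap (block a f), ?_, ?_, ?_⟩
  · rw [List.mem_append, List.mem_cons, List.mem_flatMap, List.mem_flatMap]
    rintro (⟨j, hj, h⟩ | h | ⟨i', hi', h⟩)
    · unfold block at h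
      rw [List.mem_cons] at h
      rcases h with h | h
      · omega
      · obtain ⟨i', -, h5, h6⟩ := mem_content h
        have : i = i' := by omega
        subst this
        rw [h5] at h1
        exact h1 hj
    · omega
    · have := List.eq_of_mem_replicate h
      have : i = i' := by omega
      subst this
      exact k1 hi'
  · rw [List.mem_append, List.mem_flatMap, List.mem_flatMap]
    rintro (⟨i', hi', h⟩ | ⟨j, hj, h⟩)
    · have := List.eq_of_mem_replicate h
      have : i = i' := by omega
      subst this
      exact k2 hi'
    · unfold block at h
      rw [List.mem_cons] at h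
      rcases h with h | h
      · omega
      · obtain ⟨i', -, h5, h6⟩ := mem_content h
        have : i = i' := by omega
        subst this
        rw [h5] at h2
        exact h2 hj
  · unfold word
    rw [h3]
    unfold block
    have : content a f (f i) = _ := k3
    rw [this]
    simp [List.append_assoc]

theorem positions_item {b i : ℕ} (hi : i < a.length) (hf : f i < b) :
    ∃ x, positions (word a f b) (i + 1) =
      (List.range (a.getD i 0)).map (fun j => x + j * 1) := by
  obtain ⟨X, Y, hX, hY, h⟩ := word_split hi hf
  refine ⟨X.length, ?_⟩
  rw [h, positions_append, positions_append, positions_of_notMem hX, positions_of_notMem hY,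
    positions_replicate]
  simp

theorem length_word {b B : ℕ} (h : ∀ j < b, (content a f j).length = B) :
    ∀ k ≤ b, (word a f k).length = k * (B + 1)
  | 0, _ => by simp [word]
  | k + 1, hk => by
    have ih := length_word h k (by omega)
    unfold word at ih ⊢
    rw [List.range_succ, List.flatMap_append, List.length_append, ih]
    simp only [List.flatMap_cons, List.flatMap_nil, List.append_nil, block, List.length_cons,
      h k (by omega)]
    ring

theorem positions_zero {b B : ℕ} (h : ∀ j < b, (content a f j).length = B) :
    ∀ k ≤ b, positions (word a f k) 0 = (List.range k).map (fun j => 0 + j * (B + 1))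
  | 0, _ => by simp [word, positions]
  | k + 1, hk => by
    have ih := positions_zero h k (by omega)
    have hl := length_word h k (by omega)
    have e : word a f (k + 1) = word a f k ++ block a f k := by
      unfold word
      rw [List.range_succ, List.flatMap_append]
      simp
    rw [e, positions_append, ih, hl, List.range_succ, List.map_append]
    congr 1
    have e2 : block a f k = [0] ++ content a f k := rfl
    rw [e2, positions_append, positions_of_notMem (zero_notMem_content k)]
    simp [positions]

end

/-- the vector of an item -/
def vec (D s : ℕ) : List ℕ := (D - (s - 1)) :: List.replicate (s - 1) 1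

/-- the instance of a bin packing instance -/
def inst (a : List ℕ) (b B : ℕ) : Inst :=
  (b :: a, List.replicate b (B + 1) :: a.map (vec (b * (B + 1))))

theorem legal_inst {a : List ℕ} {b B : ℕ} (hb : 1 ≤ b) (hsum : a.sum = b * B)
    (ha : ∀ i < a.length, 1 ≤ a.getD i 0) : Legal (inst a b B) := by
  have hD : (inst a b B).1.sum = b * (B + 1) := by
    simp only [inst, List.sum_cons, hsum]
    ring
  refine ⟨by simp [inst], ?_⟩
  intro i hi
  rw [hD]
  rcases i with _ | i
  · refine ⟨by simpa [inst] using hb, by simp [inst], ?_, ?_, ?_⟩
    · intro x hx
      simp only [inst, List.getD_cons_zero] at hx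
      rw [List.eq_of_mem_replicate hx]
      omega
    · simp only [inst, List.getD_cons_zero]
      rw [List.pairwise_replicate]
      simp
    · simp [inst]
  · have hi' : i < a.length := by simpa [inst] using hi
    have h1 := ha i hi'
    have e1 : (inst a b B).1.getD (i + 1) 0 = a.getD i 0 := by simp [inst]
    have e2 : (inst a b B).2.getD (i + 1) [] = vec (b * (B + 1)) (a.getD i 0) := by
      simp only [inst, List.getD_cons_succ]
      rw [List.getD_eq_getElem _ _ (by simpa using hi'), List.getElem_map,
        List.getD_eq_getElem _ _ hi']
    have h2 : a.getD i 0 ≤ b * B := by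
      rw [← hsum, List.getD_eq_getElem _ _ hi']
      exact List.single_le_sum (by simp) _ (List.getElem_mem _)
    have h3 : b * (B + 1) = b * B + b := by ring
    rw [e1, e2]
    refine ⟨h1, by simp only [vec, List.length_cons, List.length_replicate]; omega, ?_, ?_, ?_⟩
    · intro x hx
      unfold vec at hx
      rw [List.mem_cons] at hx
      rcases hx with rfl | hx
      · omega
      · rw [List.eq_of_mem_replicate hx]
    · unfold vec
      rw [List.pairwise_cons, List.pairwise_replicate]
      refine ⟨?_, by simp⟩
      intro x hx
      rw [List.eq_of_mem_replicate hx]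
      omega
    · simp only [vec, List.sum_cons, List.sum_replicate, smul_eq_mul, mul_one]
      omega

theorem feasible_of_packing {a : List ℕ} {b B : ℕ} (hb : 1 ≤ b) (hsum : a.sum = b * B)
    (ha : ∀ i < a.length, 1 ≤ a.getD i 0) {f : ℕ → ℕ} (hf : ∀ i < a.length, f i < b)
    (hle : ∀ j < b, ∑ i ∈ (Finset.range a.length).filter (fun i => f i = j), a.getD i 0 ≤ B) :
    Feasible (inst a b B) := by
  have htot : ∑ j ∈ Finset.range b,
      ∑ i ∈ (Finset.range a.length).filter (fun i => f i = j), a.getD i 0 = b * B := by
    rw [Finset.sum_fiberwise_of_maps_to (fun i hi => Finset.mem_range.2 (hf i (Finset.mem_range.1 hi))),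
      ← hsum]
    have : ∀ l : List ℕ, ∑ i ∈ Finset.range l.length, l.getD i 0 = l.sum := by
      intro l
      induction l with
      | nil => simp
      | cons x l ih =>
        rw [List.length_cons, Finset.sum_range_succ']
        simp only [List.getD_cons_succ, List.getD_cons_zero, List.sum_cons, ih]
        ring
    exact this a
  have heq : ∀ j < b, ∑ i ∈ (Finset.range a.length).filter (fun i => f i = j), a.getD i 0 = B := by
    by_contra hcon
    push Not at hcon
    obtain ⟨j, hj, hne⟩ := hcon
    have : ∑ j ∈ Finset.range b,
      ∑ i ∈ (Finset.range a.length).filter (fun i => f i = j), a.getD i 0 <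
        ∑ j ∈ Finset.range b, B := by
      apply Finset.sum_lt_sum
      · intro j hj
        exact hle j (Finset.mem_range.1 hj)
      · exact ⟨j, Finset.mem_range.2 hj, lt_of_le_of_ne (hle j hj) hne⟩
    rw [htot] at this
    simp at this
  have hcon : ∀ j < b, (content a f j).length = B := by
    intro j hj
    rw [length_content, heq j hj]
  have hlen : (word a f b).length = b * (B + 1) := length_word hcon b le_rfl
  have hD : (inst a b B).1.sum = b * (B + 1) := by
    simp only [inst, List.sum_cons, hsum]
    ring
  have hz := positions_zero hcon b le_rfl
  refine ⟨word a f b, ⟨?_, ?_, ?_⟩, ?_⟩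
  · rw [hlen, hD]
  · intro c hc
    have := mem_word hc
    simpa [inst] using this
  · intro i hi
    rw [← length_positions]
    rcases i with _ | i
    · rw [hz]
      simp [inst]
    · have hi' : i < a.length := by simpa [inst] using hi
      obtain ⟨x, hx⟩ := positions_item hi' (hf i hi')
      rw [hx]
      simp [inst]
  · intro i hi
    rw [Multiset.coe_eq_coe]
    rcases i with _ | i
    · obtain ⟨k, rfl⟩ : ∃ k, b = k + 1 := ⟨b - 1, by omega⟩
      rw [distances_ap hz, hlen]
      simp only [inst, List.getD_cons_zero]
      have : (k + 1) * (B + 1) - k * (B + 1) = B + 1 := by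
        rw [← Nat.sub_mul]
        simp
      rw [this, ← List.replicate_succ']
    · have hi' : i < a.length := by simpa [inst] using hi
      have e2 : (inst a b B).2.getD (i + 1) [] = vec (b * (B + 1)) (a.getD i 0) := by
        simp only [inst, List.getD_cons_succ]
        rw [List.getD_eq_getElem _ _ (by simpa using hi'), List.getElem_map,
          List.getD_eq_getElem _ _ hi']
      obtain ⟨x, hx⟩ := positions_item hi' (hf i hi')
      obtain ⟨s, hs⟩ : ∃ s, a.getD i 0 = s + 1 := ⟨a.getD i 0 - 1, by have := ha i hi'; omega⟩
      rw [hs] at hx
      rw [e2, distances_ap hx, hlen, hs]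
      simp only [vec, Nat.add_sub_cancel, mul_one]
      exact List.perm_append_singleton _ _

end Pool.Agent.Q225.Jit
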