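import Pool.Agent.Q225.Jit.Bwd
import Pool.Agent.NPC.Dec
import Pool.Agent.H671R2.PolyAuto

set_option autoImplicit false

/-! FEAS is in NP. -/

namespace Pool.Agent.Q225.Jit

open Pool.Agent.NPC

theorem chain_zip {α : Type} (R : α → α → Prop) : ∀ l : List α,
    l.IsChain R ↔ ∀ e ∈ l.zip l.tail, R e.1 e.2
  | [] => by simp
  | [a] => by simp
  | a :: b :: l => by
    have ih := chain_zip R (b :: l)
    rw [List.isChain_cons_cons, ih]
    simp only [List.tail_cons, List.zip_cons_cons, List.mem_cons, forall_eq_or_imp]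

/-- test for a decomposition vector -/
def decB (D d : ℕ) (α : List ℕ) : Bool :=
  decide (α.length = d) && (α.all (fun x => decide (1 ≤ x)) &&
    ((α.zip α.tail).all (fun e => decide (e.2 ≤ e.1)) && decide (α.sum = D)))

theorem decB_iff (D d : ℕ) (α : List ℕ) : decB D d α = true ↔ IsDecomposition D d α := by
  unfold decB IsDecomposition
  have : IsTrans ℕ (fun x y => y ≤ x) := ⟨fun a b c h1 h2 => le_trans h2 h1⟩
  rw [← List.isChain_iff_pairwise, chain_zip]
  simp only [Bool.and_eq_true, decide_eq_true_eq, List.all_eq_true]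

/-- test for a well-formed instance -/
def legB (I : Inst) : Bool :=
  decide (I.2.length = I.1.length) && (List.range I.1.length).all (fun i =>
    decide (1 ≤ I.1.getD i 0) && decB I.1.sum (I.1.getD i 0) (I.2.getD i []))

theorem legB_iff (I : Inst) : legB I = true ↔ Legal I := by
  unfold legB Legal
  simp only [Bool.and_eq_true, decide_eq_true_eq, List.all_eq_true, decB_iff, List.mem_range]

/-- number of occurrences -/
def cnt (l : List ℕ) (x : ℕ) : ℕ := (l.filter (fun y => decide (y = x))).length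

theorem cnt_eq (l : List ℕ) (x : ℕ) : cnt l x = l.count x := by
  unfold cnt
  rw [List.count_eq_countP, List.countP_eq_length_filter]
  congr 1

/-- test for permutations -/
def prmB (l l' : List ℕ) : Bool := (l ++ l').all (fun x => decide (cnt l x = cnt l' x))

theorem prmB_iff (l l' : List ℕ) : prmB l l' = true ↔
    Multiset.ofList l = Multiset.ofList l' := by
  unfold prmB
  rw [Multiset.coe_eq_coe, List.perm_iff_count]
  simp only [List.all_eq_true, decide_eq_true_eq, cnt_eq]
  constructor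
  · intro h x
    by_cases hx : x ∈ l ++ l'
    · exact h x hx
    · rw [List.mem_append, not_or] at hx
      rw [List.count_eq_zero_of_not_mem hx.1, List.count_eq_zero_of_not_mem hx.2]
  · intro h x _
    exact h x

/-- the distances, computed -/
def dst (S : List ℕ) (c : ℕ) : List ℕ :=
  ((positions S c).zip ((positions S c).tail ++ [S.length + (positions S c).head?.getD 0])).map
    (fun e => e.2 - e.1)

theorem dst_eq (S : List ℕ) (c : ℕ) : dst S c = distances S c := by
  unfold dst distances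
  rw [List.zip, List.map_zipWith]
  congr 4
  rcases positions S c <;> rfl

/-- test for the certificate -/
def cerB (I : Inst) (S : List ℕ) : Bool :=
  decide (S.length = I.1.sum) && (S.all (fun c => decide (c < I.1.length)) &&
    (List.range I.1.length).all (fun i => decide (cnt S i = I.1.getD i 0) &&
      prmB (dst S i) (I.2.getD i [])))

/-- the verifier -/
def R (p : Inst × List ℕ) : Bool := legB p.1 && cerB p.1 p.2

theorem R_iff (I : Inst) (S : List ℕ) : R (I, S) = true ↔ Legal I ∧
    (IsJit I.1 S ∧ ∀ i < I.1.length,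
      (Multiset.ofList (distances S i)) = Multiset.ofList (I.2.getD i [])) := by
  unfold R cerB IsJit
  rw [Bool.and_eq_true, legB_iff]
  simp only [Bool.and_eq_true, decide_eq_true_eq, List.all_eq_true, List.mem_range, cnt_eq,
    prmB_iff, dst_eq]
  constructor
  · rintro ⟨h1, h2, h3, h4⟩
    exact ⟨h1, ⟨h2, h3, fun i hi => (h4 i hi).1⟩, fun i hi => (h4 i hi).2⟩
  · rintro ⟨h1, ⟨h2, h3, h4⟩, h5⟩
    exact ⟨h1, h2, h3, fun i hi => ⟨h4 i hi, h5 i hi⟩⟩

section poly

variable {α : Type} [TEnc α]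

theorem poly_cnt {l : α → List ℕ} {x : α → ℕ} (hl : Poly l) (hx : Poly x) :
    Poly (fun a => cnt (l a) (x a)) := by
  unfold cnt
  fun_prop

theorem poly_prmB {l l' : α → List ℕ} (hl : Poly l) (hl' : Poly l') :
    Poly (fun a => prmB (l a) (l' a)) := by
  unfold prmB
  refine NPC.Poly.all (p := fun a x => decide (cnt (l a) x = cnt (l' a) x))
    (NPC.Poly.append hl hl') ?_
  exact NPC.Poly.decide_eq
    (poly_cnt (hl.comp (NPC.Poly.fst NPC.Poly.id)) (NPC.Poly.snd NPC.Poly.id))
    (poly_cnt (hl'.comp (NPC.Poly.fst NPC.Poly.id)) (NPC.Poly.snd NPC.Poly.id))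

theorem poly_positions {S : α → List ℕ} {c : α → ℕ} (hS : Poly S) (hc : Poly c) :
    Poly (fun a => positions (S a) (c a)) := by
  unfold positions
  refine NPC.Poly.filter (p := fun a p => decide ((S a).getD p 0 = c a))
    (NPC.Poly.range_length hS) ?_
  exact NPC.Poly.decide_eq (NPC.Poly.getD (hS.comp (NPC.Poly.fst NPC.Poly.id))
    (NPC.Poly.snd NPC.Poly.id) (NPC.Poly.const 0)) (hc.comp (NPC.Poly.fst NPC.Poly.id))

theorem poly_dst {S : α → List ℕ} {c : α → ℕ} (hS : Poly S) (hc : Poly c) :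
    Poly (fun a => dst (S a) (c a)) := by
  unfold dst
  have hp := poly_positions hS hc
  refine NPC.Poly.map (F := fun _ (e : ℕ × ℕ) => e.2 - e.1) (NPC.Poly.zip hp ?_)
    (NPC.Poly.sub (NPC.Poly.snd (NPC.Poly.snd NPC.Poly.id))
      (NPC.Poly.fst (NPC.Poly.snd NPC.Poly.id)))
  exact NPC.Poly.append (NPC.Poly.tail hp) (NPC.Poly.cons
    (NPC.Poly.add (NPC.Poly.length hS) (NPC.Poly.optGetD (NPC.Poly.head? hp) (NPC.Poly.const 0)))
    (NPC.Poly.const []))

theorem poly_decB {D d : α → ℕ} {v : α → List ℕ} (hD : Poly D) (hd : Poly d) (hv : Poly v) :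
    Poly (fun a => decB (D a) (d a) (v a)) := by
  unfold decB
  fun_prop

theorem poly_legB : Poly legB := by
  unfold legB
  have h1 : Poly (fun I : Inst => I.1) := NPC.Poly.fst NPC.Poly.id
  have h2 : Poly (fun I : Inst => I.2) := NPC.Poly.snd NPC.Poly.id
  refine NPC.Poly.and (NPC.Poly.decide_eq (NPC.Poly.length h2) (NPC.Poly.length h1)) ?_
  refine NPC.Poly.all (p := fun (I : Inst) i => decide (1 ≤ I.1.getD i 0) &&
    decB I.1.sum (I.1.getD i 0) (I.2.getD i [])) (NPC.Poly.range_length h1) ?_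
  have k1 : Poly (fun p : Inst × ℕ => p.1.1) := h1.comp (NPC.Poly.fst NPC.Poly.id)
  have k2 : Poly (fun p : Inst × ℕ => p.1.2) := h2.comp (NPC.Poly.fst NPC.Poly.id)
  have k3 : Poly (fun p : Inst × ℕ => p.1.1.getD p.2 0) :=
    NPC.Poly.getD k1 (NPC.Poly.snd NPC.Poly.id) (NPC.Poly.const 0)
  have k4 : Poly (fun p : Inst × ℕ => p.1.2.getD p.2 []) :=
    NPC.Poly.getD k2 (NPC.Poly.snd NPC.Poly.id) (NPC.Poly.const [])
  exact NPC.Poly.and (NPC.Poly.decide_le (NPC.Poly.const 1) k3)
    (poly_decB (NPC.Poly.sum k1) k3 k4)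

theorem poly_cerB : Poly (fun p : Inst × List ℕ => cerB p.1 p.2) := by
  unfold cerB
  have hI : Poly (fun p : Inst × List ℕ => p.1) := NPC.Poly.fst NPC.Poly.id
  have h1 : Poly (fun p : Inst × List ℕ => p.1.1) := NPC.Poly.fst hI
  have h2 : Poly (fun p : Inst × List ℕ => p.1.2) := NPC.Poly.snd hI
  have hS : Poly (fun p : Inst × List ℕ => p.2) := NPC.Poly.snd NPC.Poly.id
  refine NPC.Poly.and (NPC.Poly.decide_eq (NPC.Poly.length hS) (NPC.Poly.sum h1))
    (NPC.Poly.and ?_ ?_)
  · exact NPC.Poly.all (p := fun (p : Inst × List ℕ) c => decide (c < p.1.1.length)) hS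
      (NPC.Poly.decide_lt (NPC.Poly.snd NPC.Poly.id)
        (NPC.Poly.length (h1.comp (NPC.Poly.fst NPC.Poly.id))))
  · refine NPC.Poly.all (p := fun (p : Inst × List ℕ) i => decide (cnt p.2 i = p.1.1.getD i 0) &&
      prmB (dst p.2 i) (p.1.2.getD i [])) (NPC.Poly.range_length h1) ?_
    have k1 : Poly (fun q : (Inst × List ℕ) × ℕ => q.1.1.1) := h1.comp (NPC.Poly.fst NPC.Poly.id)
    have k2 : Poly (fun q : (Inst × List ℕ) × ℕ => q.1.1.2) := h2.comp (NPC.Poly.fst NPC.Poly.id)
    have kS : Poly (fun q : (Inst × List ℕ) × ℕ => q.1.2) := hS.comp (NPC.Poly.fst NPC.Poly.id)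
    have ki : Poly (fun q : (Inst × List ℕ) × ℕ => q.2) := NPC.Poly.snd NPC.Poly.id
    exact NPC.Poly.and (NPC.Poly.decide_eq (poly_cnt kS ki)
      (NPC.Poly.getD k1 ki (NPC.Poly.const 0)))
      (poly_prmB (poly_dst kS ki) (NPC.Poly.getD k2 ki (NPC.Poly.const [])))

theorem poly_R : Poly R := by
  unfold R
  exact NPC.Poly.and (poly_legB.comp (NPC.Poly.fst NPC.Poly.id)) poly_cerB

end poly

theorem sum_length_le (l : List (List ℕ)) : (l.map List.length).sum ≤ sz l := by
  induction l with
  | nil => simp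
  | cons a l ih =>
    have := length_lt_sz a
    simp only [List.map_cons, List.sum_cons, sz_list_cons]
    omega

theorem map_length_eq {I : Inst} (h : Legal I) : I.1 = I.2.map List.length := by
  apply List.ext_getElem
  · rw [List.length_map, h.1]
  · intro i h1 h2
    have h3 := (h.2 i h1).2.1
    have h4 : i < I.2.length := by rw [h.1]; exact h1
    rw [List.getD_eq_getElem _ _ h1, List.getD_eq_getElem _ _ h4] at h3
    rw [List.getElem_map, h3]

theorem exists_iff (I : Inst) : Feas I ↔
    ∃ w : List ℕ, sz w ≤ (Polynomial.X * (4 * Polynomial.X + 2) + 1 : Polynomial ℕ).eval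
      (sz I) ∧ R (I, w) = true := by
  constructor
  · rintro ⟨hL, S, hS, hd⟩
    refine ⟨S, ?_, (R_iff I S).2 ⟨hL, hS, hd⟩⟩
    have h1 : S.length ≤ sz I := by
      rw [hS.1, map_length_eq hL]
      have := sum_length_le I.2
      have b2 : sz I = sz I.1 + sz I.2 + 1 := sz_pair I.1 I.2
      omega
    have h2 : I.1.length ≤ sz I := by
      have b1 := length_lt_sz I.1
      have b2 : sz I = sz I.1 + sz I.2 + 1 := sz_pair I.1 I.2
      omega
    have h3 := sz_le_length_mul S (4 * I.1.length + 1) (by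
      intro c hc
      have a1 := sz_nat_le c
      have a2 : c.size ≤ c := Nat.size_le.2 Nat.lt_two_pow_self
      have a3 := hS.2.1 c hc
      omega)
    refine h3.trans ?_
    simp only [Polynomial.eval_add, Polynomial.eval_mul, Polynomial.eval_X,
      Polynomial.eval_ofNat, Polynomial.eval_one]
    have h4 : S.length * (4 * I.1.length + 1 + 1) ≤ sz I * (4 * sz I + 2) :=
      Nat.mul_le_mul h1 (by omega)
    omega
  · rintro ⟨S, -, hR⟩
    rw [R_iff] at hR
    exact ⟨hR.1, S, hR.2.1, hR.2.2⟩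

/-- FEAS is in NP. -/
theorem inNP : InNPP Feas := inNPP_of poly_R _ exists_iff

end Pool.Agent.Q225.Jit
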