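import Pool.Agent.Q225.Jit.Bwd
import Pool.Agent.H43R3.SN.SRC
import Pool.Agent.H243R3.SN.Poly

set_option autoImplicit false

/-! The reduction from exact cover. -/

namespace Pool.Agent.Q225.Jit

open Pool.Agent.NPC Pool.Agent.NPC.H632 Pool.Agent.H557R2.Tri Pool.Agent.H692R2
open Pool.Agent.H43R3.SN Pool.Agent.NPC.SNP

section Gen

variable {α : Type} [TEnc α]

theorem poly_rep {n c : α → ℕ} (hn : UPoly n) (hc : Poly c) :
    Poly (fun x => List.replicate (n x) (c x)) := by
  refine (NPC.Poly.map (F := fun x _ => c x) hn.range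
    (hc.comp (NPC.Poly.fst NPC.Poly.id))).congr fun x => ?_
  rw [List.map_const', List.length_range]

theorem poly_vec {D s : α → ℕ} (hD : Poly D) (hs : UPoly s) : Poly (fun x => vec (D x) (s x)) := by
  unfold vec
  have h1 : UPoly (fun x => s x - 1) :=
    UPoly.of_le (NPC.Poly.sub hs.toPoly (NPC.Poly.const 1)) hs fun x => Nat.sub_le _ _
  exact NPC.Poly.cons (NPC.Poly.sub hD h1.toPoly) (poly_rep h1 (NPC.Poly.const 1))

theorem poly_inst {a : α → List ℕ} {b B : α → ℕ} (ha : Poly a) (hb : UPoly b) (hB : UPoly B)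
    (hs : ∀ x, (a x).sum = b x * B x) : Poly (fun x => inst (a x) (b x) (B x)) := by
  unfold inst
  have b1 := hb.toPoly
  have B1 := hB.toPoly
  have hD : Poly (fun x => b x * (B x + 1)) :=
    NPC.Poly.mul b1 (NPC.Poly.add B1 (NPC.Poly.const 1))
  refine NPC.Poly.pair (NPC.Poly.cons b1 ha) (NPC.Poly.cons ?_ ?_)
  · exact poly_rep hb (NPC.Poly.add B1 (NPC.Poly.const 1))
  · have hm : UPoly (fun p : α × ℕ => min p.2 (b p.1 * B p.1)) := by
      have h2 : UPoly (fun p : α × ℕ => b p.1 * B p.1) :=
        UPoly.mul (hb.comp (NPC.Poly.fst NPC.Poly.id)) (hB.comp (NPC.Poly.fst NPC.Poly.id))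
      exact UPoly.of_le (NPC.Poly.min (NPC.Poly.snd NPC.Poly.id) h2.toPoly) h2
        fun p => min_le_right _ _
    refine (NPC.Poly.map (F := fun x s => vec (b x * (B x + 1)) (min s (b x * B x))) ha
      (poly_vec (hD.comp (NPC.Poly.fst NPC.Poly.id)) hm)).congr fun x => ?_
    apply List.map_congr_left
    intro s hs'
    have h3 : s ≤ b x * B x := by
      rw [← hs x]
      exact List.single_le_sum (by simp) _ hs'
    rw [min_eq_left h3]

end Gen

/-- a well-formed instance that is not feasible -/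
def badInst : Inst := ([2, 2], [[3, 1], [2, 2]])

theorem legal_bad : Legal badInst := by
  refine ⟨rfl, ?_⟩
  intro i hi
  have : i = 0 ∨ i = 1 := by
    simp only [badInst, List.length_cons, List.length_nil] at hi
    omega
  rcases this with rfl | rfl <;> simp [badInst, IsDecomposition]

theorem not_feasible_bad : ¬ Feasible badInst := by
  rintro ⟨S, ⟨h1, h2, h3⟩, h4⟩
  have h5 : S.length = 4 := by simpa [badInst] using h1
  obtain ⟨x, y, z, w, rfl⟩ : ∃ x y z w, S = [x, y, z, w] := by
    rcases S with _ | ⟨x, _ | ⟨y, _ | ⟨z, _ | ⟨w, _ | ⟨v, S⟩⟩⟩⟩⟩ <;> simp at h5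
    exact ⟨x, y, z, w, rfl⟩
  have hx : x < 2 := by simpa [badInst] using h2 x (by simp)
  have hy : y < 2 := by simpa [badInst] using h2 y (by simp)
  have hz : z < 2 := by simpa [badInst] using h2 z (by simp)
  have hw : w < 2 := by simpa [badInst] using h2 w (by simp)
  have h6 := h4 0 (by simp [badInst])
  have h7 := h4 1 (by simp [badInst])
  clear h1 h2 h3 h4 h5
  revert h6 h7
  interval_cases x <;> interval_cases y <;> interval_cases z <;> interval_cases w <;> decide

/-- The instance of an instance of exact cover by 3-sets. -/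
noncomputable def red (I : List (ℕ × ℕ × ℕ) × ℕ) : Inst :=
  if tst I then inst (sizes (clip I)) (bb (clip I)) (BB (clip I)) else badInst

theorem poly_red : Poly red := by
  unfold red
  refine NPC.Poly.ite (p := tst) poly_tst ?_ (NPC.Poly.const _)
  exact poly_inst (poly_sizes.comp poly_clip) ubb uBB fun I => (clip_tst I).1

theorem sizes_pos (I : List (ℕ × ℕ × ℕ) × ℕ) : ∀ i < (sizes I).length, 1 ≤ (sizes I).getD i 0 := by
  intro i hi
  rw [List.getD_eq_getElem _ _ hi]
  have h : (sizes I)[i] ∈ sizes I := List.getElem_mem hi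
  unfold sizes at h
  rw [List.mem_map] at h
  obtain ⟨e, -, he⟩ := h
  have h1 : (sizes I)[i] = min (Pool.Agent.H43R3.SN.sz I.1.length I.2 e) (20 * MM I.1.length I.2) :=
    he.symm
  rw [h1]
  have h2 : 100 ≤ MM I.1.length I.2 := by unfold MM; omega
  have h3 : 16 ≤ wt e.1 := by
    unfold wt
    split_ifs <;> omega
  have h4 : MM I.1.length I.2 * 1 ≤ MM I.1.length I.2 * wt e.1 := Nat.mul_le_mul_left _ (by omega)
  unfold Pool.Agent.H43R3.SN.sz
  omega

theorem red_correct (I : List (ℕ × ℕ × ℕ) × ℕ) (hI : Pr I.1 I.2) :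
    X3C I ↔ Feas (red I) := by
  have hbd : Pool.Agent.NPC.SNP.bd I = I := by
    unfold Pool.Agent.NPC.SNP.bd
    rw [Nat.min_eq_left (q_le hI)]
  rw [Pool.Agent.H43R3.SN.SRC.taskSRC I hI]
  have hb : 1 ≤ bb I := by
    have := hI.ne
    have h2 : 0 < I.1.length := List.length_pos_iff.2 this
    unfold bb
    omega
  have hpos := sizes_pos I
  unfold Feas
  by_cases h : tst I
  · have hc : clip I = I := by
      unfold clip
      rw [if_pos h, hbd]
    have hr : red I = inst (sizes I) (bb I) (BB I) := by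
      unfold red
      rw [if_pos h, hc]
    rw [hr]
    have hsum : (sizes I).sum = bb I * BB I := by
      unfold tst at h
      rwa [hbd] at h
    constructor
    · rintro ⟨_, f, hf1, hf2⟩
      exact ⟨legal_inst hb hsum hpos, feasible_of_packing hb hsum hpos hf1 hf2⟩
    · rintro ⟨_, h1⟩
      exact ⟨hsum, packing_of_feasible hb hsum h1⟩
  · have hr : red I = badInst := by
      unfold red
      rw [if_neg h]
    rw [hr]
    constructor
    · rintro ⟨h1, _⟩
      exfalso
      apply h
      unfold tst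
      rwa [hbd]
    · rintro ⟨_, h1⟩
      exact absurd h1 not_feasible_bad

/-- FEAS is hard. -/
theorem hard : NPHardP Feas :=
  (hardPr_X3Cr.trans (Pr' := fun _ => True) poly_red (fun _ _ => trivial) red_correct).toHardI.toNPHardP

end Pool.Agent.Q225.Jit
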